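import Pool.Agent.Q229.MS.Mem
import Pool.Agent.NPC.Classes
import Pool.Agent.H642R2.TMSim

/-!
# Matrix symmetry under row permutations is NP-complete

`P A` is symmetric for some permutation matrix `P` if and only if there is a permutation `σ` with
`A (σ i) j = A (σ j) i` for all `i`, `j`.

The reduction is from exactly-one-in-three satisfiability.  The indices are divided into small
classes that `σ` has to preserve (padding makes the row and column sums of different classes
different), and the diagonal blocks of the classes are identity matrices, so that `σ` is an
involution.  A variable is a class with two elements, which `σ` exchanges or not.  The upper and the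
lower blocks of the matrix describe two graphs `H`, `H'` such that `σ` is an isomorphism from `H` to
`H'`.  A clause has a class of four elements, which makes the number of its true literals odd, and
two classes of four elements forming an 8-cycle, two literals of the clause giving the action of `σ`
on the two diagonals of a square and on its two pairs of parallel sides; the elements of the
dihedral group exchanging both are the rotations of order four, and they are not involutions.
-/

set_option autoImplicit false

namespace Pool.Agent.Results.MP_e2e0ab_lc.MatrixSymmetryNPComplete

open Pool.Agent.NPC Pool.Agent.H622R2 Q229.MS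

/-- **Matrix symmetry (MS) is NP-complete.**  Hence MS is reducible to graph isomorphism (in
polynomial time, many-one) if and only if graph isomorphism is NP-hard. -/
theorem result :
    InNPP MatSym ∧ NPHardP MatSym ∧
    (Reduces (lang MatSym) (lang GraphIso) ↔ NPHardP GraphIso) ∧
    (InPP MatSym ↔ ∀ L : Set (List Bool), InNP L → InP L) := by
  refine ⟨inNPP, hardI_MatSym.toNPHardP, ⟨?_, fun h => h _ inNPP⟩,
    ⟨fun h => NPHard.collapse hardI_MatSym.toNPHardP h, fun h => h _ inNPP⟩⟩
  rintro ⟨f, hf, hfL⟩ L hL
  obtain ⟨g, hg, hgL⟩ := hardI_MatSym.toNPHardP L hL
  exact ⟨fun x => f (g x), Pool.Agent.H642R2.TMSim.polyTime_comp hf hg,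
    fun x => (hgL x).trans (hfL _)⟩

end Pool.Agent.Results.MP_e2e0ab_lc.MatrixSymmetryNPComplete
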